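import Mathlib
import Pool.Agent.H593.U6.F3
import Pool.Agent.H593.U8.Dim3

/-!
# The circle problem for almost every centre and all radii

`P a b R` is the number of integer points in the closed disc of centre `(a, b)` and radius `R`, minus
`π R²`. We bound the area of the set of the centres `(a, b)` for which `|P a b R| > V √R` for at least one
radius `R ∈ [X, 2X]`. As a consequence, for almost every centre the bound `|P a b R| ≤ C R^(17/28 + ε)`
holds for all radii `R ≥ 1`, and for `θ > 17/28` the set of the centres with `|P a b R| > R^θ` for arbitrarily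
large radii `R` has Hausdorff dimension at most `2 - (28 θ - 17) / (3 (1 - θ)) < 2` (at most `10/7` for
`θ = 131/208`).

Outline. Let `m = 3, 4, 5`. The Fourier series of `P a b R` in the centre is a sum over lattice points `k`
of `|k|^{-3/2} e(k . (a, b) ± R |k|)`. The `2m`-th moment over the centre of the supremum over the radius of
the part with `|k| ~ K` is bounded, by a Sobolev inequality in the radius, by the energy of order `2m` of
the points `(k, |k|)`: the number of solutions of `k_1 + ... + k_m = k_{m+1} + ... + k_{2m}` with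
`||k_1| + ... + |k_m| - |k_{m+1}| - ... - |k_{2m}|| ≤ 1/T`. The energy bound `K^{4m-3+ε}/T` is proved for
`T ≤ K^θ` with every `θ < 2` (`m = 3`), `θ < 5/2` (`m = 4`), `θ < 11/4` (`m = 5`) in
`Pool.Agent.H593.U6.SC5.HE_three`, `Kap2.HE_four`, `Kap3.HE_five`: Poisson summation changes the
large values of the exponential sum into rich thin annuli, that is, annuli with random centre and radius
which contain many lattice points; these are rare, since such an annulus contains many triples of lattice
points which determine its circle well. The trivial bound is used for `K ≤ V²`.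

The dimension: a disc of radius `R` and centre `z` is contained in the disc of radius `R + 2ρ` and centre `w` if
the coordinates of `z - w` are at most `ρ`; so a centre `z` with `|P z R| > R^θ` makes all centres in the square of
side `ρ ~ R^(θ - 1)` around `z` bad for `R^θ / 2` and a nearby radius, and the area bound gives the number of
squares of this side which are needed to cover the bad centres (`Pool.Agent.H593.U8.Dim2`, `Dim3`).
-/

open MeasureTheory Set
open Pool.Agent.H593.U
open scoped ENNReal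

namespace Pool.Agent.Results.MP_fb29e9_nt.AlmostEveryCentreAllRadii

/-- **The circle problem for almost every centre.** Let `P a b R` be the number of integer points in the
closed disc of centre `(a, b)` and radius `R`, minus `π R²`.
* For every `ε > 0` there is a `C` such that for all `X ≥ 1` and `V > 0` the area of the set of the centres
  `(a, b) ∈ [0, 1)²` for which `|P a b R| > V √R` for at least one radius `R ∈ [X, 2X]` is at most
  `C X^(1+ε) V^(-28/3)`.
* For almost every centre `(a, b) ∈ ℝ²`, for every `ε > 0` there is a `C` such that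
  `|P a b R| ≤ C R^(17/28 + ε)` for all `R ≥ 1`.
* For `17/28 < θ < 1` the set of the centres `(a, b) ∈ ℝ²` such that `|P a b R| > R^θ` for arbitrarily large `R`
  has Hausdorff dimension at most `max (2 - (28 θ - 17) / (3 (1 - θ))) 0`. -/
theorem result (P : ℝ → ℝ → ℝ → ℝ)
    (hP : ∀ a b R : ℝ, P a b R =
      (Nat.card {p : ℤ × ℤ // ((p.1 : ℝ) - a) ^ 2 + ((p.2 : ℝ) - b) ^ 2 ≤ R ^ 2} : ℝ) - Real.pi * R ^ 2) :
    (∀ ε : ℝ, 0 < ε → ∃ C : ℝ, ∀ X V : ℝ, 1 ≤ X → 0 < V →
      volume {z : ℝ × ℝ | 0 ≤ z.1 ∧ z.1 < 1 ∧ 0 ≤ z.2 ∧ z.2 < 1 ∧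
        ∃ R : ℝ, X ≤ R ∧ R ≤ 2 * X ∧ V * √R < |P z.1 z.2 R|} ≤
          ENNReal.ofReal (C * X ^ (1 + ε) * V ^ (-(28 / 3) : ℝ))) ∧
    (∀ᵐ z : ℝ × ℝ, ∀ ε : ℝ, 0 < ε → ∃ C : ℝ, ∀ R : ℝ, 1 ≤ R →
      |P z.1 z.2 R| ≤ C * R ^ (17 / 28 + ε : ℝ)) ∧
    (∀ θ : ℝ, 17 / 28 < θ → θ < 1 →
      dimH {z : ℝ × ℝ | ∀ R₀ : ℝ, ∃ R : ℝ, R₀ ≤ R ∧ R ^ θ < |P z.1 z.2 R|} ≤
        ENNReal.ofReal (2 - (28 * θ - 17) / (3 * (1 - θ)))) := by
  have hPa : ∀ (a : ℝ × ℝ) (R : ℝ), P a.1 a.2 R = Pa a R := by
    intro a R
    rw [hP]; rfl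
  simp only [hPa]
  refine ⟨?_, ae_good, ?_⟩
  · intro ε hε
    obtain ⟨C, hC, h⟩ := area_all hε
    refine ⟨C, ?_⟩
    intro X V hX hV
    rw [mul_assoc]
    refine (measure_mono ?_).trans (h X V hX hV)
    rintro z ⟨h1, h2, h3, h4, h5⟩
    exact ⟨⟨⟨h1, h2⟩, ⟨h3, h4⟩⟩, h5⟩
  · intro θ h0 h1
    have e : {z : ℝ × ℝ | ∀ R₀ : ℝ, ∃ R : ℝ, R₀ ≤ R ∧ R ^ θ < |Pa z R|} =
        {a : ℝ × ℝ | ∃ᶠ R in Filter.atTop, R ^ θ < |Pa a R|} := by
      ext z
      exact Filter.frequently_atTop.symm
    rw [e]
    exact dimH_exceptional h0 h1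

end Pool.Agent.Results.MP_fb29e9_nt.AlmostEveryCentreAllRadii
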