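import Pool.Agent.H471.CR.Fin

set_option autoImplicit false

/-!
# MP_fb29e9_nt: all mixed moments of the circle problem along arbitrary sequences of generic polynomial radii

For every `j < k` let `x_{0,j} < x_{1,j} < ⋯` be ANY real sequence with gaps at least one, `x_{0,j} ≥ 1`, of at
most polynomial growth, let `1 ≤ e_j < d_j` be integers, let `0 ≤ y_{n,j} ≪ x_{n,j} ^ {d_j}` be ARBITRARY real
numbers and `w_n` ARBITRARY complex weights, `|w_n| ≤ 1`. For almost all real `a_j > 0`, `b_j`, with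

`R_{n,j} = y_{n,j} + a_j x_{n,j} ^ {d_j} + b_j x_{n,j} ^ {e_j}`, `P(R) = #{(m, n) : m ² + n ² ≤ R ²} - π R ²`,

`∑_{n < N} w_n ∏_j P(R_{n,j}) / √R_{n,j} = O(N ^ (1/2 + ε))`.

For `k = 1` this is the conjectured bound `P(R) ≪ R ^ (1/2 + ε)` in the mean, with square root cancellation on top
of it, along arbitrary sparse sequences of radii and against arbitrary weights. For `k ≥ 2` the error terms at `k`
such radii are uncorrelated, to all orders of the number of factors.

Proof. `P(R) / √R` is, in the mean square over `(a_j, b_j)` in a box and up to `x ^ (-1/2)`, a trigonometric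
polynomial with the frequencies `2π√m` (the sandwich between two smoothed Hardy-Voronoi sums of the library of the
team, with the short differences estimated in the mean square). One factor is replaced by its polynomial. The
correlation of the terms `n ≠ m` of this factor over `(a, b)` is `≪ |n - m|⁻¹` up to `n ^ ε`: the frequencies
`A √l - B √m`, `A' √l - B' √m` (`A = x_n ^ d`, `A' = x_n ^ e`, `B = x_m ^ d`, `B' = x_m ^ e`) can not both be
small, by the gap `x_m - x_n`. The other factors are controlled by their mean squares. The theorem of Gál and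
Koksma gives the result for almost all parameters.
-/

namespace Pool.Agent.Results.MP_fb29e9_nt.GenericPolynomialRadii

open MeasureTheory

/-- the error term of the circle problem -/
noncomputable def P (R : ℝ) : ℝ :=
  (Nat.card {p : ℤ × ℤ // (p.1 : ℝ) ^ 2 + (p.2 : ℝ) ^ 2 ≤ R ^ 2} : ℝ) - Real.pi * R ^ 2

/-- the radii `R_{n,j} = y_{n,j} + a_j x_{n,j} ^ {d_j} + b_j x_{n,j} ^ {e_j}`, `θ_j = (a_j, b_j)` -/
def radius {k : ℕ} (d e : Fin k → ℕ) (x y : ℕ → Fin k → ℝ) (θ : Fin k → ℝ × ℝ) (n : ℕ) (j : Fin k) : ℝ :=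
  y n j + (θ j).1 * x n j ^ d j + (θ j).2 * x n j ^ e j

/-- **mixed moments, arbitrary sequences, generic polynomial radii, square root error term** -/
theorem result (k : ℕ) (hk : 1 ≤ k) (d e : Fin k → ℕ) (he : ∀ j, 1 ≤ e j ∧ e j < d j)
    (x : ℕ → Fin k → ℝ) (hx0 : ∀ j, 1 ≤ x 0 j) (hx : ∀ n j, x n j + 1 ≤ x (n + 1) j)
    (B : ℝ) (hB : ∀ (n : ℕ) (j : Fin k), x n j ≤ ((n : ℝ) + 2) ^ B)
    (y : ℕ → Fin k → ℝ) (Y : ℝ) (hy : ∀ n j, 0 ≤ y n j ∧ y n j ≤ Y * x n j ^ d j)
    (w : ℕ → ℂ) (hw : ∀ n, ‖w n‖ ≤ 1) :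
    ∀ᵐ θ : Fin k → ℝ × ℝ, (∀ j, 0 < (θ j).1) → ∀ ε : ℝ, 0 < ε → ∃ K : ℝ, ∀ N : ℕ,
      ‖∑ n ∈ Finset.range N, w n *
          ((∏ j, P (radius d e x y θ n j) / √(radius d e x y θ n j) : ℝ) : ℂ)‖ ≤
        K * (N : ℝ) ^ (1 / 2 + ε) := by
  have h := Pool.Agent.H471.CR.allC hk d e (fun j => (he j).1) (fun j => (he j).2) x hx0 hx B hB y |Y| (abs_nonneg _) (by
    intro n j
    refine ⟨(hy n j).1, (hy n j).2.trans ?_⟩
    have h1 : 0 ≤ x n j := by
      have := Pool.Agent.H471.QP.x_ge hx0 hx n j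
      have h0 : (0 : ℝ) ≤ n := Nat.cast_nonneg n
      linarith
    have h2 : 0 ≤ x n j ^ d j := pow_nonneg h1 _
    exact mul_le_mul_of_nonneg_right (le_abs_self Y) h2) w hw
  filter_upwards [h] with θ hθ hj ε hε
  obtain ⟨K, hK⟩ := hθ hj ε hε
  refine ⟨K, fun N => (le_of_eq ?_).trans (hK N)⟩
  congr 1
  refine Finset.sum_congr rfl fun n _ => ?_
  unfold Pool.Agent.H471.CR.SC Pool.Agent.H383.Gauss.En Pool.Agent.H383.Gauss.F Pool.Agent.H471.QP.uu radius P
  have e1 : ∀ j, y n j + (θ j).2 * x n j ^ e j + (θ j).1 * x n j ^ d j =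
      y n j + (θ j).1 * x n j ^ d j + (θ j).2 * x n j ^ e j := fun j => by ring
  simp only [e1]
  push_cast
  rfl

end Pool.Agent.Results.MP_fb29e9_nt.GenericPolynomialRadii
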