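import Pool.Agent.H480.CP.T

/-!
# The Gauss circle problem: the size of the error term at one scale and approximate rank

Let `P(R) = #{(m, n) ∈ ℤ² : m² + n² ≤ R²} - π R²`. Fix `A, A' > 1` and look at `P` near one scale `X` through the kernel
`(x, y) ↦ P(X x y)` on the rectangle `[1, A] × [1, A']`. Suppose that at this scale the kernel is, uniformly on the
rectangle, within `E` of SOME sum of `r` products `u_i(x) v_i(y)` (arbitrary functions, not even measurable, of any
size). We prove, unconditionally and with a constant `C` that does not depend on `X`, `r`, `E`: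

* `|P(X z)| ≤ C √(r + 1) (E + √X)` for all `z` in a given compact part of `(1, A A')`.

So the subtraction of any kernel of rank `r` can make the error term smaller at most by the factor `C √(r + 1)`, down
to the size `√X` of its mean square. This is a statement on a single scale, uniform in the rank. Consequences:

* for every `θ ≥ 1/2` the bound `P(R) = O(R^(θ + ε))` for all `ε > 0` holds if and only if for all `ε > 0` and all large
  `X` the kernel `P(X x y)` is within `X^(θ + ε)` of rank at most `X^ε`; for `θ = 1/2` this is an equivalent form of the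
  conjecture;
* if the kernel is within `X^(1/2 + ε)` of rank at most `X^(2δ)`, then `P(R) = O(R^(1/2 + δ + ε))`.

Proof. On the curve `x y = z` the kernel is constant, `V = P(X z)`. Choose points `x_1, …, x_n` such that the numbers
`P(X z x_i / x_j)`, `i ≠ j`, are small in mean square; this is possible one point after the other since the mean square of
`P` is `O(X)` in windows. So the matrix `P(X x_i (z / x_j))` has the diagonal entries `V`, and the other entries are
`O(√X)` in mean square. A matrix of rank `r` has trace at most `√r` times its Hilbert-Schmidt norm; so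
`n (V - E) ≤ √r (2 n V² + 2 n² (C X + E²))^(1/2)`, and `n → ∞` gives the inequality. The number `n` of points is not
bounded by the number of functions: this gives `√r` in place of `r`.
-/

set_option autoImplicit false

open Filter Topology Set

namespace Pool.Agent.Results.MP_fb29e9_nt.LocalRankInequality

/-- `P(R)`: the number of integer points `(m, n)` with `m² + n² ≤ R²`, minus the area `π R²` of the disc -/
noncomputable def err (R : ℝ) : ℝ :=
  (Nat.card {p : ℤ × ℤ // (p.1 : ℝ) ^ 2 + (p.2 : ℝ) ^ 2 ≤ R ^ 2} : ℝ) - Real.pi * R ^ 2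

/-- at the scale `X` the error term has approximate rank at most `r` up to `E`: on the rectangle `[1, A] × [1, A']` the
kernel `P(X x y)` is everywhere within `E` of a sum of `r` products `u_i(x) v_i(y)` -/
def NearRank (A A' : ℝ) (r : ℕ) (E X : ℝ) : Prop :=
  ∃ u v : Fin r → ℝ → ℂ, ∀ x ∈ Icc 1 A, ∀ y ∈ Icc 1 A', ‖(err (X * x * y) : ℂ) - ∑ i, u i x * v i y‖ ≤ E

/-- **The size of the error term of the circle problem at one scale, and its approximate rank.** -/
theorem result {A A' : ℝ} (hA : 1 < A) (hA' : 1 < A') :
    -- the inequality at one scale, for every rank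
    (∀ z₁ z₂ : ℝ, 1 < z₁ → z₂ < A * A' → ∃ C : ℝ, 0 < C ∧ ∀ X : ℝ, 1 ≤ X → ∀ (r : ℕ) (E : ℝ), NearRank A A' r E X →
      ∀ z ∈ Icc z₁ z₂, |err (X * z)| ≤ C * √(r + 1) * (E + √X)) ∧
    -- the equivalent form of the bounds
    (∀ θ : ℝ, 1 / 2 ≤ θ → ((∀ ε : ℝ, 0 < ε → err =O[atTop] fun R : ℝ => R ^ (θ + ε)) ↔
      ∀ ε : ℝ, 0 < ε → ∀ᶠ X : ℝ in atTop, NearRank A A' ⌊X ^ ε⌋₊ (X ^ (θ + ε)) X)) :=
  ⟨fun _ _ h1 h2 => Pool.Agent.H480.CP.circle_ineq hA hA' h1 h2, fun _ hθ => Pool.Agent.H480.CP.circle_iff hA hA' hθ⟩

end Pool.Agent.Results.MP_fb29e9_nt.LocalRankInequality
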