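import Mathlib
import Pool.Agent.H593.U7.P_BADA
import Pool.Agent.H593.U7.P_CMP
import Pool.Agent.H593.U7.P_CELL
import Pool.Agent.H593.U7.P_NEAR
import Pool.Agent.H593.U7.P_SIX
import Pool.Agent.H593.U7.P_LAW1
import Pool.Agent.H593.U7.P_TONE
import Pool.Agent.H593.U7.P_LAW2
import Pool.Agent.H593.U7.P_BLK
import Pool.Agent.H593.U7.P_EN
import Pool.Agent.H593.U7.P_AP
import Pool.Agent.H593.U7.P_TAIL
import Pool.Agent.H593.U7.P_SUP
import Pool.Agent.H593.U7.P_POS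
import Pool.Agent.H593.U7.P_TOR
import Pool.Agent.H593.U7.P_MEAS
import Pool.Agent.H593.U7.P_UNIT
import Pool.Agent.H593.U7.P_J0
import Pool.Agent.H593.U7.MOM

/-!
# The limit law of the maximal discrepancy of discs over all centres

For a centre `a` in the plane and a radius `R`, let `N a R` be the number of integer points in the closed
disc of centre `a` and radius `R`, and `F R a = (N a R - π R²)/√R`. We study the function `F R` of all
centres at once, in the supremum norm, for a random radius `R` of the window `[X, X + H]`,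
`X^(1-c) ≤ H ≤ X`.

Outline. The part of the Fourier series of `F R a` with frequencies `|k| ~ K` is `K^{-3/2} S(a, R)`,
`S(a, R) = ∑ b_k e(k·a + R|k|)`. Its supremum over all centres is of order at most `K^{3/2-c}` for most
radii (module `P_BADA`): near a centre with a larger value the local energy of `S` in a square of side
`K^{-0.51}` is larger than normal for many separated times (a large values estimate of Halász-Montgomery
type with the dispersive decay of the half-wave kernel, module `U7/H3`), while the mean square of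
the local energy is normal by an optimal-type count of the coincidences of `|k + l| - |k|`, i.e. of lattice points
near confocal hyperbolas (modules `U7/N1`-`U7/N6`). The sixth moment of the supremum is bounded by
the third order energy of the lattice points on the cone (`U6/SC5`), and interpolation gives a power
saving for all moments of order `p < 6` of the supremum (`P_BLK`), hence almost periodicity of order
`p < 6` uniformly in the centre (`P_AP`).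
-/

open MeasureTheory Set
open Pool.Agent.H593.U
open scoped ENNReal

namespace Pool.Agent.Results.MP_fb29e9_nt.MaximalDiscrepancyLaw

/-- the number of integer points in the closed disc with centre `a` and radius `R` -/
noncomputable def N (a : ℝ × ℝ) (R : ℝ) : ℝ :=
  (Nat.card {p : ℤ × ℤ // ((p.1 : ℝ) - a.1) ^ 2 + ((p.2 : ℝ) - a.2) ^ 2 ≤ R ^ 2} : ℝ)

/-- the normalised discrepancy, as a function of the centre -/
noncomputable def F (R : ℝ) (a : ℝ × ℝ) : ℝ := (N a R - Real.pi * R ^ 2) / √R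

/-- the sum over the lattice points `0 < |k| ≤ K` of
`π⁻¹ |k|^(-3/2) sin (2πR|k| - π/4) cos (2π k·a)` -/
noncomputable def T (K : ℕ) (R : ℝ) (a : ℝ × ℝ) : ℝ :=
  ∑ k ∈ (Finset.Icc (-(K:ℤ)) K ×ˢ Finset.Icc (-(K:ℤ)) K).filter
      (fun k : ℤ × ℤ => k ≠ 0 ∧ (k.1:ℝ) ^ 2 + (k.2:ℝ) ^ 2 ≤ (K:ℝ) ^ 2),
    1 / Real.pi * (√((k.1:ℝ) ^ 2 + (k.2:ℝ) ^ 2)) ^ (-(3/2):ℝ) *
      Real.sin (2 * Real.pi * (R * √((k.1:ℝ) ^ 2 + (k.2:ℝ) ^ 2)) - Real.pi / 4) *
      Real.cos (2 * Real.pi * (k.1 * a.1 + k.2 * a.2))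

/-- the mean of `g` over the window `[X, X + H]` -/
noncomputable def mean (X H : ℝ) (g : ℝ → ℝ) : ℝ := (1 / H) * ∫ R in Icc X (X + H), g R

lemma F_eq (R : ℝ) (a : ℝ × ℝ) : F R a = Pa a R / √R := rfl

lemma T_eq (K : ℕ) (R : ℝ) (a : ℝ × ℝ) : T K R a = Va R 0 K a := by
  have hJ : Pool.Agent.H383.Gauss.J 0 = Real.pi := j0
  have hs : (Finset.Icc (-(K:ℤ)) K ×ˢ Finset.Icc (-(K:ℤ)) K).filter
      (fun k : ℤ × ℤ => k ≠ 0 ∧ (k.1:ℝ) ^ 2 + (k.2:ℝ) ^ 2 ≤ (K:ℝ) ^ 2) = (Pool.Agent.H383.Gauss.ballS (K:ℝ)).erase 0 := by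
    ext k
    rw [Finset.mem_filter, Finset.mem_erase, Pool.Agent.H383.Gauss.mem_ballS (Nat.cast_nonneg K)]
    constructor
    · rintro ⟨_, h1, h2⟩; exact ⟨h1, h2⟩
    · rintro ⟨h1, h2⟩
      refine ⟨?_, h1, h2⟩
      have k1 : (k.1:ℝ) ^ 2 ≤ (K:ℝ) ^ 2 := by nlinarith [sq_nonneg (k.2:ℝ)]
      have k2 : (k.2:ℝ) ^ 2 ≤ (K:ℝ) ^ 2 := by nlinarith [sq_nonneg (k.1:ℝ)]
      have k3 := abs_le_of_sq_le_sq k1 (Nat.cast_nonneg K)
      have k4 := abs_le_of_sq_le_sq k2 (Nat.cast_nonneg K)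
      rw [Finset.mem_product, Finset.mem_Icc, Finset.mem_Icc]
      rw [abs_le] at k3 k4
      exact ⟨⟨by exact_mod_cast k3.1, by exact_mod_cast k3.2⟩, ⟨by exact_mod_cast k4.1, by exact_mod_cast k4.2⟩⟩
  unfold T Va
  rw [hs]
  apply Finset.sum_congr rfl
  intro k _
  unfold bw dp Pool.Agent.H383.Gauss.nz
  rw [zero_mul, hJ]
  have hpi := Real.pi_pos
  congr 2
  field_simp

/-- **The maximal discrepancy of discs over all centres.**
(1) All mean values of order `p < 6` of the maximal normalised discrepancy `sup_a |F R a|` converge, to positive limits.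
(2) For any functionals `Φ 0, ..., Φ (n-1)` of functions of the centre which are Lipschitz in the supremum distance,
the vector `Φ (F R)` has a limit law, and the mean values of all continuous functions of growth of order `p < 6` converge.
(3) In particular this applies to the (signed) suprema of `F R` over arbitrary sets of centres.
(4) `F R a` is almost periodic of order `p < 6` in the radius `R`, uniformly in the centre `a`, with the Fourier series `T`.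
(5) The measure of the set of radii with a discrepancy above `V √R` for at least one centre is at most
`C H V^(-p)`, `p < 6`.
(6) In almost all unit intervals all radii have for all centres a discrepancy of at most `R^(4/7+ε)`.
(7) In all windows, in particular those with `√X ≤ H ≤ X`, the measure in (5) is at most `C X^ε (H + √X) V^(-4)`. -/
theorem result :
    (∀ p : ℝ, 1 ≤ p → p < 6 → ∃ C c : ℝ, 0 < C ∧ 0 < c ∧ c < 1 ∧ ∀ ε : ℝ, 0 < ε → ∃ X0 : ℝ, ∀ X H : ℝ,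
      X0 ≤ X → X ^ (1 - c) ≤ H → H ≤ X → |mean X H (fun R => (⨆ a : ℝ × ℝ, |F R a|) ^ p) - C| ≤ ε) ∧
    (∀ (n : ℕ) (L : ℝ) (Φ : Fin n → ((ℝ × ℝ → ℝ) → ℝ)),
      (∀ (i : Fin n) (f g : ℝ × ℝ → ℝ) (D : ℝ), (∀ a, |f a - g a| ≤ D) → |Φ i f - Φ i g| ≤ L * D) →
      (∀ i : Fin n, Measurable fun R : ℝ => Φ i (F R)) →
      ∃ μ : Measure (Fin n → ℝ), IsProbabilityMeasure μ ∧ ∀ p : ℝ, 1 ≤ p → p < 6 → ∃ c : ℝ, 0 < c ∧ c < 1 ∧
        ∀ f : (Fin n → ℝ) → ℝ, Continuous f → (∃ C : ℝ, ∀ x, |f x| ≤ C * (1 + ‖x‖ ^ p)) →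
        Integrable f μ ∧ ∀ ε : ℝ, 0 < ε → ∃ X0 : ℝ, ∀ X H : ℝ, X0 ≤ X → X ^ (1 - c) ≤ H → H ≤ X →
        |mean X H (fun R => f (fun i => Φ i (F R))) - ∫ x, f x ∂μ| ≤ ε) ∧
    (∀ A : Set (ℝ × ℝ), A.Nonempty → ∀ s : ℝ, (s = 1 ∨ s = -1) →
      (Measurable fun R : ℝ => ⨆ a : A, s * F R a) ∧
      ∀ (f g : ℝ × ℝ → ℝ) (D : ℝ), (∀ a, |f a - g a| ≤ D) → |(⨆ a : A, s * f a) - ⨆ a : A, s * g a| ≤ D) ∧
    (∀ p : ℝ, 1 ≤ p → p < 6 → ∃ c : ℝ, 0 < c ∧ c < 1 ∧ ∀ ε : ℝ, 0 < ε → ∃ K0 : ℕ, ∀ K : ℕ, K0 ≤ K → ∃ X0 : ℝ,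
      ∀ X H : ℝ, X0 ≤ X → X ^ (1 - c) ≤ H → H ≤ X →
      ∫⁻ R in Icc X (X + H), (⨆ a : ℝ × ℝ, ENNReal.ofReal |F R a - T K R a|) ^ p ≤ ENNReal.ofReal (ε * H)) ∧
    (∀ p : ℝ, 1 ≤ p → p < 6 → ∃ c C X0 : ℝ, 0 < c ∧ c < 1 ∧ 0 < C ∧ ∀ X H V : ℝ, X0 ≤ X → X ^ (1 - c) ≤ H →
      H ≤ X → 0 < V →
      volume {R : ℝ | X ≤ R ∧ R ≤ X + H ∧ ∃ a : ℝ × ℝ, V * √R < |N a R - Real.pi * R ^ 2|} ≤
        ENNReal.ofReal (C * (H * V ^ (-p)))) ∧
    (∀ ε : ℝ, 0 < ε → ∃ ε' C : ℝ, 0 < ε' ∧ 0 < C ∧ ∀ (X : ℝ) (A : Finset ℕ), 1 ≤ X →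
      (∀ n ∈ A, X ≤ n ∧ (n:ℝ) ≤ 2 * X ∧ ∃ R : ℝ, n ≤ R ∧ R ≤ n + 1 ∧
        ∃ a : ℝ × ℝ, R ^ (4/7 + ε) < |N a R - Real.pi * R ^ 2|) →
      (A.card : ℝ) ≤ C * X ^ (1 - ε')) ∧
    (∀ ε : ℝ, 0 < ε → ∃ C : ℝ, 0 < C ∧ ∀ X H V : ℝ, 4 ≤ X → 0 ≤ H → H ≤ 2 * X → 0 < V →
      volume {R : ℝ | X ≤ R ∧ R ≤ X + H ∧ ∃ a : ℝ × ℝ, V * √R < |N a R - Real.pi * R ^ 2|} ≤
        ENNReal.ofReal (C * (X ^ ε * (H + √X) / V ^ 4))) := by
  have h6 := six
  have hb := bada (cell near) en h6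
  have hk := blk hb h6
  have ht := tail (tone hk h6)
  have ha := ap ht Pool.Agent.H593.U.cmp
  refine ⟨?_, ?_, ?_, ?_, ?_, ?_, ?_⟩
  · exact moments ha tor law1 law2 Pool.Agent.H593.U.sup (pos ha)
  · intro n L Φ hΦ hm
    exact fun_law ha tor law1 law2 n L Φ hΦ (measurable_pi_lambda _ hm).aemeasurable
  · exact Pool.Agent.H593.U.sup
  · intro p hp1 hp6
    obtain ⟨c, hc, hc', h⟩ := ha p hp1 hp6
    refine ⟨c, hc, hc', ?_⟩
    intro ε hε
    obtain ⟨K0, hK0⟩ := h ε hε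
    refine ⟨K0, ?_⟩
    intro K hK
    obtain ⟨X0, hX0⟩ := hK0 K hK
    refine ⟨X0, ?_⟩
    intro X H h1 h2 h3
    simp_rw [T_eq]
    exact hX0 X H h1 h2 h3
  · exact meas ha
  · exact unit_int (meas ha)
  · intro ε hε
    exact big_set hε

end Pool.Agent.Results.MP_fb29e9_nt.MaximalDiscrepancyLaw
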